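import Pool.Agent.R140.PK.Or

/-!
# The oriented cycle double cover conjecture for graphs without an induced path on 8 vertices (MP_781dd6_co)

Every finite simple graph without cut edges and without an induced path on eight vertices has an
orientable cycle double cover with five classes: its associated digraph decomposes into directed
cycles of length at least three, which can be divided into five families such that no family uses
an edge twice.

Proof.  By the theorem of `Pool.Agent.R140.PK.Main8` (handed in for MP_e6539c_co) a loopless
multigraph of this kind whose cubic splittings have no cut edges has a nowhere-zero 4-flow or a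
contraction to the Petersen graph.  An inclusion-minimal piece of the decomposition
along cuts with three edges is treated with the explicit orientable double cover of the Petersen
graph, and double covers of two sides of a 3-edge-cut fit together after a permutation of the five
classes (an orientable double cover with five classes is a flow with values `e_i - e_j`, and three
such vectors with sum zero are a triangle).
-/

set_option autoImplicit false

namespace Pool.Agent.Results.MP_781dd6_co.InducedPathEight
open Finset

open scoped Classical in
/-- how often the closed walks of the list `C` traverse the arc from `u` to `v` -/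
noncomputable def uses {V : Type} {G : SimpleGraph V} (C : List (Σ v : V, G.Walk v v)) (u v : V) : ℕ :=
  (C.map (fun c => (c.2.darts.filter (fun d => decide (d.toProd = (u, v)))).length)).sum

/-- A simple graph without cut edges and without an induced path on eight vertices has an
orientable cycle double cover with five classes. -/
theorem result (V : Type) [Finite V] (G : SimpleGraph V)
    (hb : ∀ u v, G.Adj u v → (G.deleteEdges {s(u, v)}).Reachable u v)
    (hp : ¬ ∃ p : Fin 8 → V, Function.Injective p ∧
      ∀ i j : Fin 8, i < j → (G.Adj (p i) (p j) ↔ i.val + 1 = j.val)) :
    ∃ C : Fin 5 → List (Σ v : V, G.Walk v v), (∀ i, ∀ c ∈ C i, c.2.IsCycle) ∧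
      (∀ i u v, uses (C i) u v + uses (C i) v u ≤ 1) ∧
      ∀ u v, G.Adj u v → ∑ i, uses (C i) u v = 1 := by
  classical
  have hV : Fintype V := Fintype.ofFinite V
  obtain ⟨E, _, _, K, hK, hF⟩ := Pool.Agent.R140.PK.simple_main G hb hp
  obtain ⟨C, h1, h2, h3⟩ := Pool.Agent.H23.PS.cycles_of_classes G K hK hF
  exact ⟨C, h1, h2, h3⟩

end Pool.Agent.Results.MP_781dd6_co.InducedPathEight
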