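import Pool.Agent.H23.PS.OcFin

/-!
# Sums with the Petersen graph preserve orientable five cycle double covers (MP_781dd6_co)

If a finite multigraph `G` has an orientable cycle double cover with five classes, then so has every
graph obtained from `G` by a sequence of 2-, 3- and 4-sums with the Petersen graph `P`
(`PetersenSum`, from the starting files):

* replace an edge by `P` minus an edge;
* replace a vertex of degree three by `P` minus a vertex;
* replace two edges by `P` minus two adjacent vertices (the dot product of `G` and `P`);
* replace an edge both of whose ends have degree three by `P` minus two disjoint edges, at distance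
  one or two (the dot product of `P` and `G`).

If the graph obtained is (an orientation of) a simple graph `S` and `G` has an orientable cycle double
cover with five classes, or `G` is the union of two even subgraphs (equivalently, has a nowhere-zero
4-flow), then the associated digraph `D(S)` decomposes into directed cycles of length at least three.
So the conjecture holds for all iterated dot products of Petersen graphs and 3-edge-colourable
cubic graphs of this kind.

Proof.  An orientable cycle double cover with five classes is a flow with values `e_i - e_j` (twenty
values).  Every choice of values on the two, three or four edges of the cut which is possible on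
the side that is replaced extends to the Petersen fragment; the kernel checks tables of solutions
(20, 120, 400, 720 and 720 cases).
-/

set_option autoImplicit false

namespace Pool.Agent.Results.MP_781dd6_co.PetersenSums
open Finset Pool.Agent.H160R2.HF Pool.Agent.H179R3.HF Pool.Agent.H23.PS

open scoped Classical in
/-- how often the closed walks of the list `C` traverse the arc from `u` to `v` -/
noncomputable def uses {V : Type} {S : SimpleGraph V} (C : List (Σ v : V, S.Walk v v)) (u v : V) : ℕ :=
  (C.map (fun c => (c.2.darts.filter (fun d => decide (d.toProd = (u, v)))).length)).sum

/-- Orientable five cycle double covers are preserved by sums with the Petersen graph; simple graphs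
obtained in this way from a graph with such a cover, or from the union of two even subgraphs,
satisfy the oriented cycle double cover conjecture, with five classes. -/
theorem result :
    (∀ (V V' E E' : Type) [Fintype V] [Fintype E] [DecidableEq V] [Fintype V'] [Fintype E']
      [DecidableEq V'] (G : OrGraph V E) (K : OrGraph V' E'),
      PetersenSum G K → FiveClasses G → FiveClasses K) ∧
    (∀ (V V' E E' : Type) [Fintype V] [Fintype E] [DecidableEq V] [DecidableEq E] [Fintype V']
      [Fintype E'] [DecidableEq V'] (G : OrGraph V E) (K : OrGraph V' E') (S : SimpleGraph V'),
      PetersenSum G K → IsOrientation S K →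
      (FiveClasses G ∨ ∃ F₁ F₂ : Finset E, (∀ v, Even (G.deg F₁ v)) ∧ (∀ v, Even (G.deg F₂ v)) ∧
        F₁ ∪ F₂ = univ) →
      ∃ C : Fin 5 → List (Σ v : V', S.Walk v v), (∀ i, ∀ c ∈ C i, c.2.IsCycle) ∧
        (∀ i u v, uses (C i) u v + uses (C i) v u ≤ 1) ∧
        ∀ u v, S.Adj u v → ∑ i, uses (C i) u v = 1) := by
  refine ⟨?_, ?_⟩
  · intro V V' E E' _ _ _ _ _ _ G K h hG
    exact fiveClasses_sum h hG
  · intro V V' E E' _ _ _ _ _ _ _ G K S h hS hG
    have hG' : FiveClasses G := by
      rcases hG with hG | ⟨F₁, F₂, h₁, h₂, h₃⟩
      · exact hG
      · exact fiveClasses_of_cover G F₁ F₂ h₁ h₂ h₃
    obtain ⟨C, h1, h2, h3⟩ := cycles_of_classes S K hS (fiveClasses_sum h hG')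
    exact ⟨C, h1, h2, h3⟩

end Pool.Agent.Results.MP_781dd6_co.PetersenSums
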