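import Pool.Agent.R926.SC.OrientMix

/-!
# Orientable five cycle double covers: few odd pieces (MP_781dd6_co)

The oriented cycle double cover conjecture, with five classes, holds for every graph without cut
edges and with at most sixteen vertices of odd degree (with arbitrarily many vertices of even degree,
arbitrary degrees and arbitrary small cuts).  More generally, let `G` be a bridgeless multigraph and
`C_1, ..., C_m` sets of edges, such that each `C_i` has at most four edges outside the union of the
earlier ones and no bridge modulo this union (circuits, or open or closed ears), or contains two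
disjoint sets each of which connects all that `C_i` connects modulo this union (for example if `C_i`
is the edge set of a 4-edge-connected subgraph).  Let `F` be their union.  If at most sixteen
components of the graph `(V, F)` have an odd number of boundary edges in `G`, then `G` has an
orientable cycle double cover with five classes.

Proof.  By the starting library `TH362/TF` a graph without bridges with at most sixteen vertices of
odd degree has a nowhere-zero 4-flow or can be partitioned into ten classes which form a Petersen
graph; this is applied to `G / F`.  In the first case the flow is lifted to `G`, since circuits with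
at most four edges can be contracted for 4-flows (the case of four edges is an exchange argument,
`R926/SC/Kempe.lean`) and pieces with two disjoint connectors too (`R926/SC/Mixed.lean`), and it
gives four classes.  In the second case each class contains an odd
number of the odd vertices of `G / F`, hence at most seven, and the graph in which all vertices
outside the class are identified has a nowhere-zero 4-flow.  The orientable covers of these ten
graphs are flows whose values are differences of two of five unit vectors; any two triples of such
values with sum zero are equivalent under the permutations of the five vectors and the change of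
sign, so the ten flows can be made to agree with an orientable cover of the Petersen graph on the
fifteen edges between the classes.
-/

set_option autoImplicit false

open Finset

namespace Pool.Agent.Results.MP_781dd6_co.SixteenOddPieces

open Pool.Agent.H160R2.HF Pool.Agent.H23.PS

/-- The edges with exactly one end in `Y`. -/
def boundary {V E : Type} [DecidableEq V] [Fintype E] (K : OrGraph V E) (Y : Finset V) :
    Finset E :=
  Finset.univ.filter (fun e => ¬ (K.t e ∈ Y ↔ K.h e ∈ Y))

/-- The component of `x` in the graph with the vertices `V` and the edges `F`. -/
noncomputable def component {V E : Type} [Fintype V] (K : OrGraph V E) (F : Finset E) (x : V) :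
    Finset V :=
  open Classical in Finset.univ.filter (fun y =>
    Relation.EqvGen (fun a b => ∃ e ∈ F, K.t e = a ∧ K.h e = b) x y)

/-- The union of the sets `C j` with `j < i`. -/
def earlier {E : Type} [DecidableEq E] {m : ℕ} (C : Fin m → Finset E) (i : Fin m) : Finset E :=
  (Finset.univ.filter (fun j => j < i)).biUnion C

/-- `H` can be added to the chain after `F`: either (short) `H` has at most four edges outside `F`
and no bridge modulo `F`: no set `Y` of vertices without boundary edges in `F` has exactly one
boundary edge in `H`; or (doubly connected) `H` contains two disjoint sets each of which connects,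
modulo `F`, whatever `H` connects: every set `Y` of vertices without boundary edges in `F` and with
a boundary edge in `H` has boundary edges in both sets. -/
def Step {V E : Type} [DecidableEq V] [Fintype E] [DecidableEq E] (K : OrGraph V E)
    (F H : Finset E) : Prop :=
  ((H \ F).card ≤ 4 ∧ ∀ Y : Finset V, Disjoint (boundary K Y) F →
    (boundary K Y ∩ H).card ≠ 1) ∨
  ∃ T₁ T₂ : Finset E, T₁ ⊆ H ∧ T₂ ⊆ H ∧ Disjoint T₁ T₂ ∧ ∀ Y : Finset V,
    Disjoint (boundary K Y) F → ¬ Disjoint (boundary K Y) H →
      ¬ Disjoint (boundary K Y) T₁ ∧ ¬ Disjoint (boundary K Y) T₂

/-- `K` is bridgeless, each `C i` can be added to the chain after the union of the earlier ones, and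
at most sixteen components of the graph whose edges are the elements of the sets `C i` have an odd
number of boundary edges. -/
def FewOddPieces {V E : Type} [Fintype V] [DecidableEq V] [Fintype E] [DecidableEq E]
    (K : OrGraph V E) {m : ℕ} (C : Fin m → Finset E) : Prop :=
  (∀ Y : Finset V, (boundary K Y).card ≠ 1) ∧
  (∀ i, Step K (earlier C i) (C i)) ∧
  ((Finset.univ.image (component K (Finset.univ.biUnion C))).filter
    (fun X => Odd (boundary K X).card)).card ≤ 16

open scoped Classical in
/-- how often the closed walks of the list `C` traverse the arc from `u` to `v` -/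
noncomputable def uses {V : Type} {S : SimpleGraph V} (C : List (Σ v : V, S.Walk v v)) (u v : V) :
    ℕ :=
  (C.map (fun c => (c.2.darts.filter (fun d => decide (d.toProd = (u, v)))).length)).sum

/-- The associated digraph of `S` decomposes into directed cycles of length at least three, in five
families none of which uses an edge twice. -/
def FiveFamilies {V : Type} (S : SimpleGraph V) : Prop :=
  ∃ C : Fin 5 → List (Σ v : V, S.Walk v v), (∀ i, ∀ c ∈ C i, c.2.IsCycle) ∧
    (∀ i u v, uses (C i) u v + uses (C i) v u ≤ 1) ∧
    ∀ u v, S.Adj u v → ∑ i, uses (C i) u v = 1

theorem multi (V E : Type) [Fintype V] [DecidableEq V] [Fintype E] [DecidableEq E]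
    (K : OrGraph V E) (m : ℕ) (C : Fin m → Finset E) (h : FewOddPieces K C) : FiveClasses K := by
  obtain ⟨hb, hC, ho⟩ := h
  exact Pool.Agent.R926.SC.five16M Pool.Agent.Y335.FL.circEx K.t K.h m C
    (Pool.Agent.R926.SC.st_of K.t K.h m C hC) (Pool.Agent.R926.SC.n1_crs _ _ hb)
    (fun r q1 q3 => Pool.Agent.R926.SC.h16_of K.t K.h (univ.biUnion C) ho r q1 q3)

/-- The edges of a simple graph, in one direction. -/
noncomputable def orient {V : Type} (S : SimpleGraph V) : OrGraph V S.edgeSet where
  t := fun e => (Quot.out e.1).1
  h := fun e => (Quot.out e.1).2

theorem orient_mk {V : Type} (S : SimpleGraph V) (e : S.edgeSet) :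
    s((orient S).t e, (orient S).h e) = e.1 := Quot.out_eq e.1

theorem orient_adj {V : Type} (S : SimpleGraph V) (e : S.edgeSet) :
    S.Adj ((orient S).t e) ((orient S).h e) := by
  rw [← SimpleGraph.mem_edgeSet, orient_mk]
  exact e.2

theorem orient_is {V : Type} (S : SimpleGraph V) : IsOrientation S (orient S) := by
  refine ⟨orient_adj S, fun u v huv => ⟨⟨s(u, v), huv⟩, ?_, ?_⟩⟩
  · have h := orient_mk S ⟨s(u, v), huv⟩
    rcases Sym2.eq_iff.1 h with ⟨h1, h2⟩ | ⟨h1, h2⟩
    · exact Or.inl ⟨h1, h2⟩
    · exact Or.inr ⟨h2, h1⟩
  · intro e he
    apply Subtype.ext
    rw [← orient_mk S e]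
    rcases he with ⟨h1, h2⟩ | ⟨h1, h2⟩
    · show s((orient S).t e, (orient S).h e) = s(u, v)
      rw [h1, h2]
    · show s((orient S).t e, (orient S).h e) = s(u, v)
      rw [h1, h2, Sym2.eq_swap]

theorem orient_bridgeless {V : Type} [Fintype V] [DecidableEq V] (S : SimpleGraph V)
    [Fintype S.edgeSet]
    (h : ∀ u v : V, S.Adj u v → (S.deleteEdges {s(u, v)}).Reachable u v) (Y : Finset V) :
    (boundary (orient S) Y).card ≠ 1 := by
  intro hc
  obtain ⟨e, he⟩ := card_eq_one.mp hc
  have hm : ∀ e', e' ∈ boundary (orient S) Y ↔
      ¬ ((orient S).t e' ∈ Y ↔ (orient S).h e' ∈ Y) := by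
    intro e'
    unfold boundary
    rw [mem_filter]
    simp
  have hee : e ∈ boundary (orient S) Y := by rw [he]; exact mem_singleton_self e
  have hadj : ∀ a b, (S.deleteEdges {s((orient S).t e, (orient S).h e)}).Adj a b →
      (a ∈ Y ↔ b ∈ Y) := by
    intro a b hab
    rw [SimpleGraph.deleteEdges_adj] at hab
    by_contra hcon
    have h1 : (⟨s(a, b), hab.1⟩ : S.edgeSet) ∈ boundary (orient S) Y := by
      rw [hm]
      have h2 := orient_mk S ⟨s(a, b), hab.1⟩
      rcases Sym2.eq_iff.1 h2 with ⟨h3, h4⟩ | ⟨h3, h4⟩
      · rw [h3, h4]; exact hcon
      · rw [h3, h4]; exact fun h5 => hcon h5.symm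
    rw [he, mem_singleton] at h1
    apply hab.2
    rw [Set.mem_singleton_iff, orient_mk, ← h1]
  obtain ⟨p⟩ := h _ _ (orient_adj S e)
  have key : ∀ a b, (S.deleteEdges {s((orient S).t e, (orient S).h e)}).Walk a b →
      (a ∈ Y ↔ b ∈ Y) := by
    intro a b p
    induction p with
    | nil => exact Iff.rfl
    | cons hab _ ih => exact (hadj _ _ hab).trans ih
  exact (hm e).1 hee (key _ _ p)

theorem boundary_card {V : Type} [Fintype V] [DecidableEq V] (S : SimpleGraph V)
    [Fintype S.edgeSet] (v : V) :
    (boundary (orient S) {v}).card = {w | S.Adj v w}.ncard := by
  classical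
  rw [← Set.ncard_coe_finset]
  symm
  refine Set.ncard_congr (fun w hw => (⟨s(v, w), hw⟩ : S.edgeSet)) ?_ ?_ ?_
  · intro w hw
    have hne : v ≠ w := SimpleGraph.Adj.ne hw
    rw [mem_coe]
    unfold boundary
    rw [mem_filter, mem_singleton, mem_singleton]
    refine ⟨mem_univ _, ?_⟩
    have h2 := orient_mk S ⟨s(v, w), hw⟩
    rcases Sym2.eq_iff.1 h2 with ⟨h3, h4⟩ | ⟨h3, h4⟩
    · rw [h3, h4]; exact fun h => hne (h.1 rfl).symm
    · rw [h3, h4]; exact fun h => hne (h.2 rfl).symm
  · intro a b ha hb hab
    have h1 := congrArg Subtype.val hab
    exact Sym2.congr_right.1 h1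
  · intro e he
    rw [mem_coe] at he
    unfold boundary at he
    rw [mem_filter, mem_singleton, mem_singleton] at he
    by_cases h1 : (orient S).t e = v
    · refine ⟨(orient S).h e, ?_, ?_⟩
      · have := orient_adj S e
        rw [h1] at this
        exact this
      · apply Subtype.ext
        show s(v, (orient S).h e) = e.1
        rw [← h1]
        exact orient_mk S e
    · have h2 : (orient S).h e = v := by
        by_contra h2
        exact he.2 ⟨fun h => absurd h h1, fun h => absurd h h2⟩
      refine ⟨(orient S).t e, ?_, ?_⟩
      · have := orient_adj S e
        rw [h2] at this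
        exact this.symm
      · apply Subtype.ext
        show s(v, (orient S).t e) = e.1
        rw [← h2, Sym2.eq_swap]
        exact orient_mk S e

/-- The components for the empty set of edges are the vertices. -/
theorem component_empty {V E : Type} [Fintype V] [DecidableEq V] (K : OrGraph V E) (x : V) :
    component K ∅ x = {x} := by
  classical
  ext y
  unfold component
  rw [mem_filter, mem_singleton]
  constructor
  · rintro ⟨-, h⟩
    induction h with
    | rel a b hab => obtain ⟨e, he, -⟩ := hab; exact absurd he (notMem_empty _)
    | refl a => rfl
    | symm a b _ ih => exact ih.symm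
    | trans a b c _ _ i1 i2 => exact i2.trans i1
  · rintro rfl
    exact ⟨mem_univ _, Relation.EqvGen.refl _⟩

/-- (1) Every finite multigraph `K` with `FewOddPieces K C` for some chain of edge sets `C` (it is
bridgeless, each set has at most four edges outside the earlier ones and no bridge modulo them, or
two disjoint connectors, and at most sixteen components of their union have an odd number of
boundary edges) has an orientable cycle double cover with five classes.

(2) If such a multigraph is an orientation of a simple graph `S`, the associated digraph of `S`
decomposes into directed cycles of length at least three, in five families none of which uses an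
edge twice.

(3) This holds for every finite simple graph without cut edges and with at most sixteen vertices of
odd degree. -/
theorem result :
    (∀ (V E : Type) [Fintype V] [DecidableEq V] [Fintype E] [DecidableEq E] (K : OrGraph V E)
      (m : ℕ) (C : Fin m → Finset E), FewOddPieces K C → FiveClasses K) ∧
    (∀ (V E : Type) [Fintype V] [DecidableEq V] [Fintype E] [DecidableEq E] (K : OrGraph V E)
      (S : SimpleGraph V) (m : ℕ) (C : Fin m → Finset E), IsOrientation S K →
      FewOddPieces K C → FiveFamilies S) ∧
    (∀ (V : Type) [Fintype V] (S : SimpleGraph V),
      (∀ u v : V, S.Adj u v → (S.deleteEdges {s(u, v)}).Reachable u v) →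
      {v | Odd {w | S.Adj v w}.ncard}.ncard ≤ 16 → FiveFamilies S) := by
  refine ⟨fun V E _ _ _ _ K m C h => multi V E K m C h, fun V E _ _ _ _ K S m C hS h => ?_,
    fun V _ S hb ho => ?_⟩
  · obtain ⟨C, h1, h2, h3⟩ := cycles_of_classes S K hS (multi V E K m C h)
    exact ⟨C, h1, h2, h3⟩
  · classical
    have : Fintype S.edgeSet := Fintype.ofFinite _
    have hF : FewOddPieces (orient S) (fun i : Fin 0 => (i.elim0 : Finset S.edgeSet)) := by
      refine ⟨orient_bridgeless S hb, fun i => i.elim0, ?_⟩
      have h0 : Finset.univ.biUnion (fun i : Fin 0 => (i.elim0 : Finset S.edgeSet)) = ∅ := by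
        ext e
        rw [mem_biUnion]
        constructor
        · rintro ⟨i, -⟩
          exact i.elim0
        · intro h
          exact absurd h (notMem_empty _)
      rw [h0]
      have hsub : (Finset.univ.image (component (orient S) ∅)).filter
          (fun X => Odd (boundary (orient S) X).card) ⊆
          (Finset.univ.filter (fun v => Odd {w | S.Adj v w}.ncard)).image (fun v => {v}) := by
        intro X hX
        rw [mem_filter, mem_image] at hX
        obtain ⟨⟨v, -, hv⟩, hodd⟩ := hX
        rw [component_empty] at hv
        subst hv
        rw [mem_image]
        refine ⟨v, ?_, rfl⟩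
        rw [mem_filter, ← boundary_card]
        exact ⟨mem_univ _, hodd⟩
      refine (card_le_card hsub).trans (card_image_le.trans ?_)
      refine le_trans (le_of_eq ?_) ho
      rw [← Set.ncard_coe_finset]
      congr 1
      ext v
      simp
    obtain ⟨C, h1, h2, h3⟩ := cycles_of_classes S (orient S) (orient_is S) (multi V _ _ 0 _ hF)
    exact ⟨C, h1, h2, h3⟩

end Pool.Agent.Results.MP_781dd6_co.SixteenOddPieces
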