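import Pool.Agent.R890.FF.Oc5

/-!
# Orientable five cycle double covers of graphs with a vertex cover with nine vertices

Proof. An orientable cycle double cover with five classes is the same as a flow whose values are
differences of two of five unit vectors. A graph with a nowhere-zero flow with values in the group
of order four has one. Otherwise all circuits with at most four edges can be contracted, one after
the other, since nowhere-zero flows with values in the group of order four extend to them; a graph
of girth at least five without such a flow and without a contraction to the Petersen graph has
at least 18 vertices of odd degree by the theorem of the starting library, and a vertex cover with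
at most nine vertices excludes this. So the graph has such a flow or a contraction to the Petersen
graph (ten connected classes, three edges leave each class). In the second case all classes but one
are identified, for each class in turn; the flows of the ten smaller graphs (which again have vertex
covers with nine vertices) are glued along a flow of the Petersen graph, after applying permutations
of the coordinates and changes of sign: all pairs of values whose sum is a value are equivalent.
-/

set_option autoImplicit false

namespace Pool.Agent.Results.MP_781dd6_co.VertexCoverNine

open Finset Pool.Agent.H160R2.HF Pool.Agent.H23.PS

open scoped Classical in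
/-- (1) Let `G` be a finite simple graph without cut edges in which at most nine vertices meet all
edges. Then there are five families of directed cycles such that no family traverses an edge more
than once in total and every edge is traversed exactly once in each direction.
(2) Let `K` be a finite multigraph with an orientation, loops and parallel edges allowed, without
bridges, in which at most nine vertices meet all edges that are not loops. Then `K` has an
orientable cycle double cover with five classes. -/
theorem result :
    (∀ (V : Type) [Fintype V] (G : SimpleGraph V),
      (∀ u v : V, G.Adj u v → (G.deleteEdges {s(u, v)}).Reachable u v) →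
      ∀ W : Finset V, W.card ≤ 9 → (∀ u v, G.Adj u v → u ∈ W ∨ v ∈ W) →
      ∃ C : Fin 5 → List (Σ v : V, G.Walk v v), (∀ i, ∀ c ∈ C i, c.2.IsCycle) ∧
        (∀ i u v, ((C i).map (fun c =>
            (c.2.darts.filter (fun d => decide (d.toProd = (u, v)))).length)).sum +
          ((C i).map (fun c =>
            (c.2.darts.filter (fun d => decide (d.toProd = (v, u)))).length)).sum ≤ 1) ∧
        ∀ u v, G.Adj u v → ∑ i, ((C i).map (fun c =>
          (c.2.darts.filter (fun d => decide (d.toProd = (u, v)))).length)).sum = 1) ∧
    (∀ (V E : Type) [Fintype V] [DecidableEq V] [Fintype E] [DecidableEq E] (K : OrGraph V E),
      K.Bridgeless → ∀ W : Finset V, W.card ≤ 9 →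
      (∀ e, K.t e ≠ K.h e → K.t e ∈ W ∨ K.h e ∈ W) → FiveClasses K) := by
  refine ⟨?_, ?_⟩
  · intro V _ G h W h9 hW
    have hF : FiveClasses (R890.FF.orient G) :=
      R890.FF.oc_multi (R890.FF.orient G) (R890.FF.orient_bridgeless G h) W
        (fun e _ => hW _ _ ((R890.FF.orient_is G).1 e)) h9
    obtain ⟨C, h1, h2, h3⟩ := cycles_of_classes G (R890.FF.orient G) (R890.FF.orient_is G) hF
    exact ⟨C, h1, h2, h3⟩
  · intro V E _ _ _ _ K h W h9 hW
    exact R890.FF.oc_multi K h W hW h9

end Pool.Agent.Results.MP_781dd6_co.VertexCoverNine
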